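import Pool.Agent.Q45.GM.Dpg
import Pool.Agent.Q45.GM.Fin
import Pool.Agent.Q151.GM.LIN9

/-!
# Frobenius on the cohomology of a double plane and the branch curve modulo `2`

Let `k` be a field of characteristic different from `2`, with separable closure `k'`, and let
`P(t, x)` be a polynomial over `k`, monic of odd degree in `x`, such that the plane curve
`C : P(t, x) = 0` is smooth, irreducible over `k'` and separable over the `t`-line. Let `X` be the
double plane `w ^ 2 = P(t, x)` with branch curve `C`, `J` the Jacobian of the hyperelliptic curve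
`w ^ 2 = P(t, x)` over `K = k(t)`, `F = k'(t)`, and `M` the `ℤ_2`-module of the classes of the
continuous cocycles of `Gal(Sep F / F)` with values in the Tate module `T_2 J` which are locally trivial
at all the maximal ideals of `k'[t]`.

Let `S` be the ring of the functions on `C` over `k'`, `L` its field of fractions, and `W` the group of
the elements of `Lˣ` whose fractional ideal is a square, modulo the squares; if `C` has a single
place at infinity then `W` is the group of the points of order `2` of the Jacobian of `C`.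

Let `T` be an automorphism of the separable closure of `F` over `K`, and `e` the automorphism of `L` over
`k(t, x)` with the same effect `τ` on the constants in `k'`; if `k` is finite with `q` elements and
`τ c = c ^ q` these are the Frobenius automorphisms. Let `V` be a finite dimensional vector space over
`𝔽_2` which contains `W`, and `E` an endomorphism of `V` which induces the action of `e` on `W`.

The module `M` is free of finite rank, and the characteristic polynomial modulo `2` of the action `φ` of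
`T` on `M` divides the characteristic polynomial of `E`. If the last polynomial is separable, then the
eigenvalues of `φ` are distinct, `φ` is semisimple on `ℚ_2 ⊗ M` and the endomorphisms of `M` which
commute with `φ` are the polynomials in `φ`.
-/

set_option autoImplicit false
set_option linter.all false

open Polynomial IsDedekindDomain
open scoped Classical nonZeroDivisors

namespace Pool.Agent.Results.MP_93fb11_ag.BranchCurveModTwo

open Pool.Agent.Y160.SL
open Pool.Agent.TH115.GD (rs ak Sep Comp)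

/-- The derivative with respect to `t` of the polynomial `P(t, x)` in `k[t][x]`. -/
noncomputable def derivT {k : Type} [Field k] (P : k[X][X]) : k[X][X] :=
  P.sum fun i a => C (derivative a) * X ^ i

/-- The conditions on the curve `P(t, x) = 0` over `k`: `P` is monic of odd degree in `x`, the curve is
smooth and separable over the `t`-line. -/
structure IsSmoothCurve {k : Type} [Field k] (P : k[X][X]) : Prop where
  two : (2 : k) ≠ 0
  monic : P.Monic
  odd : Odd P.natDegree
  separable : derivative P ≠ 0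
  smooth : ∃ a₁ a₂ a₃ : k[X][X], a₁ * P + a₂ * derivative P + a₃ * derivT P = 1

/-- The polynomial `P(t, x)` over `k'`. -/
noncomputable def extendPoly {k : Type} [Field k] (k' : Type) [Field k'] [Algebra k k']
    (P : k[X][X]) : k'[X][X] := P.map (mapRingHom (algebraMap k k'))

/-- The ring of the functions on the curve `P(t, x) = 0` over `k'`. -/
abbrev CurveRing {k : Type} [Field k] (k' : Type) [Field k'] [Algebra k k'] (P : k[X][X]) : Type :=
  AdjoinRoot (extendPoly k' P)

/-- The polynomial `P(t, x)` over the field `K` which contains `k[t]`. -/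
noncomputable def fPoly {k : Type} [Field k] (P : k[X][X]) (K : Type) [Field K] [Algebra k[X] K] :
    K[X] := P.map (algebraMap k[X] K)

section curve

/-- The elements of `Lˣ` whose fractional ideal is a square. -/
def evenGroup (S L : Type) [CommRing S] [IsDedekindDomain S] [Field L] [Algebra S L]
    [IsFractionRing S L] : Subgroup Lˣ where
  carrier := {z | ∃ I : FractionalIdeal S⁰ L, FractionalIdeal.spanSingleton S⁰ (z : L) = I ^ 2}
  mul_mem' := (Pool.Agent.Q45.GM.evS S L).mul_mem'
  one_mem' := (Pool.Agent.Q45.GM.evS S L).one_mem'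
  inv_mem' := (Pool.Agent.Q45.GM.evS S L).inv_mem'

/-- The squares. -/
def squares (L : Type) [Field L] : Subgroup Lˣ := (powMonoidHom 2 : Lˣ →* Lˣ).range

variable {k : Type} [Field k] (k' : Type) [Field k'] [Algebra k k'] (P : k[X][X])
  (L : Type) [Field L] [Algebra (CurveRing k' P) L]

/-- The automorphism `e` of `L` fixes the polynomials in `t` and `x` over `k`. -/
def FixesPolys (e : L ≃+* L) : Prop :=
  ∀ p : k[X][X], e (algebraMap (CurveRing k' P) L (AdjoinRoot.mk _ (extendPoly k' p))) =
    algebraMap (CurveRing k' P) L (AdjoinRoot.mk _ (extendPoly k' p))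

/-- The automorphism `e` of `L` maps the constant `c` in `k'` to `τ c`. -/
def HasConstants (e : L ≃+* L) (τ : k' → k') : Prop :=
  ∀ c : k', e (algebraMap (CurveRing k' P) L (AdjoinRoot.of _ (C c))) =
    algebraMap (CurveRing k' P) L (AdjoinRoot.of _ (C (τ c)))

end curve

section lin

variable {R M : Type} [CommRing R] [AddCommGroup M] [Module R M]

/-- Each stable submodule `U` of `M` has a stable complement `U'`, up to multiplication by a power of
`p`. -/
def IsSemisimpleUpTo (p : R) (φ : M →ₗ[R] M) : Prop :=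
  ∀ U : Submodule R M, (∀ u ∈ U, φ u ∈ U) → ∃ U' : Submodule R M, (∀ u ∈ U', φ u ∈ U') ∧
    U ⊓ U' = ⊥ ∧ ∃ r : ℕ, ∀ m : M, p ^ r • m ∈ U ⊔ U'

/-- Each endomorphism which commutes with `φ` is a polynomial in `φ`. -/
def CommutantIsPolynomials (φ : M →ₗ[R] M) : Prop :=
  ∀ ψ : M →ₗ[R] M, (∀ m, ψ (φ m) = φ (ψ m)) → ∃ P : R[X], ψ = aeval φ P

end lin

/-- The characteristic polynomial modulo `2`. -/
noncomputable def charpolyModTwo (M : Type) [AddCommGroup M] [Module ℤ_[2] M] [Module.Finite ℤ_[2] M]
    [Module.Free ℤ_[2] M] (φ : M →ₗ[ℤ_[2]] M) : (ZMod 2)[X] :=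
  φ.charpoly.map (PadicInt.toZMod (p := 2))

/-- The conclusions on an endomorphism `φ` of a free `ℤ_2`-module `M` of finite rank: the eigenvalues are
distinct; `φ` is semisimple on `ℚ_2 ⊗ M`; each endomorphism which commutes with `φ` is a polynomial in
`φ`. -/
structure HasSimpleSpectrum (M : Type) [AddCommGroup M] [Module ℤ_[2] M] [Module.Finite ℤ_[2] M]
    [Module.Free ℤ_[2] M] (φ : M →ₗ[ℤ_[2]] M) : Prop where
  separable : φ.charpoly.Separable
  semisimple : IsSemisimpleUpTo 2 φ
  commutant : CommutantIsPolynomials φ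

/-- The vector space `V` over `𝔽_2` contains the quotient `Ev / Sq`, through the map `cl`, and the
endomorphism `E` of `V` induces the action of `e` on it. -/
structure IsModTwo {H : Type} [CommGroup H] (Sq Ev : Subgroup H) (e : H →* H) {V : Type}
    [AddCommGroup V] [Module (ZMod 2) V] (cl : H → V) (E : V →ₗ[ZMod 2] V) : Prop where
  add : ∀ z ∈ Ev, ∀ w ∈ Ev, cl (z * w) = cl z + cl w
  zero : ∀ z ∈ Ev, cl z = 0 ↔ z ∈ Sq
  act : ∀ z ∈ Ev, cl (e z) = E (cl z)

section gen

variable {K F Ω : Type} [Field K] [Field F] [Field Ω] [Algebra K F] [Algebra F Ω] [Algebra K Ω]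
  [IsScalarTower K F Ω] (f : K[X])

/-- The sequences of cochains of `Gal(Ω / F)` with values in `J(Ω)`. -/
abbrev Cochain (F Ω : Type) [Field F] [Field Ω] [Algebra K Ω] [Algebra F Ω] (f : K[X]) : Type :=
  ℕ → (Ω ≃ₐ[F] Ω) → Jac 2 f Ω

/-- `c` is the coboundary of an element `R` of the Tate module `T_2 J`. -/
def IsTateCoboundary (c : Cochain F Ω f) : Prop :=
  ∃ R : ℕ → Jac 2 f Ω, IsTM 2 2 f R ∧ ∀ n, IsCobOf 2 f (c n) (R n)

/-- The map `κ` identifies with `M` the group of the classes of the cocycles with the property `P`: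
it is additive and surjective on these cocycles, and `κ c = 0` if and only if `c` is the coboundary of
an element of the Tate module. -/
structure IsClassMap (P : Cochain F Ω f → Prop) (M : Type) [AddCommGroup M]
    (κ : Cochain F Ω f → M) : Prop where
  surj : ∀ m, ∃ c, P c ∧ κ c = m
  add : ∀ c d, P c → P d → κ (c + d) = κ c + κ d
  zero : ∀ c, P c → (κ c = 0 ↔ IsTateCoboundary f c)

/-- `d` is the transform of the cochain `c` by the automorphism `T` of `Ω` over `K`:
`d (σ) = T (c (σ'))`, where `σ' = T⁻¹ σ T`. -/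
def IsTransform (T : Ω ≃ₐ[K] Ω) (c d : Cochain F Ω f) : Prop :=
  ∀ n (σ σ' : Ω ≃ₐ[F] Ω), (∀ x, T (σ' x) = σ (T x)) → d n σ = jm 2 f (ak T) (c n σ')

/-- The endomorphism `φ` of `M` is induced by the automorphism `T` of `Ω` over `K`. -/
def IsInduced (P : Cochain F Ω f → Prop) {M : Type} (κ : Cochain F Ω f → M) (T : Ω ≃ₐ[K] Ω)
    (φ : M → M) : Prop :=
  ∀ c d, P c → IsTransform f T c d → P d ∧ κ d = φ (κ c)

end gen

section sel

variable {K F : Type} [Field K] [Field F] [Algebra K F] (B : Type) [CommRing B] [IsDedekindDomain B]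
  [Algebra B F] [IsFractionRing B F] (f : K[X])

/-- The restriction of the cochain `c` to the completion of `F` at every maximal ideal of the Dedekind
domain `B` with field of fractions `F` is a coboundary. -/
def IsSelmer (c : (Sep F ≃ₐ[F] Sep F) → Jac 2 f (Sep F)) : Prop :=
  ∀ v : HeightOneSpectrum B, LocTriv 2 f (Comp B F v) (Sep (Comp B F v)) c

/-- `c` is a continuous cocycle of `Gal(Sep F / F)` with values in the Tate module `T_2 J` which is
locally trivial at all the maximal ideals of the Dedekind domain `B` with field of fractions `F`; its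
component with values in `J[2 ^ n]` is `c n`. -/
def IsSelmerCocycle (c : Cochain F (Sep F) f) : Prop :=
  IsTC 2 2 f c ∧ ∀ n, IsSelmer B f (c n)

/-- The automorphism `T` of `Sep F` over `K` acts on the module of the classes as `φ`. -/
def ActsAs {M : Type} [AddCommGroup M] [Module ℤ_[2] M] (κ : Cochain F (Sep F) f → M)
    (T : Sep F ≃ₐ[K] Sep F) (φ : M →ₗ[ℤ_[2]] M) : Prop :=
  IsInduced f (IsSelmerCocycle B f) κ T φ

/-- The automorphism `T` of `Sep F` over `K` maps the constant `c` in `k'` to `τ c`. -/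
def ActsOnConstants {k' : Type} [Field k'] [Algebra k'[X] F] (T : Sep F ≃ₐ[K] Sep F) (τ : k' → k') :
    Prop :=
  ∀ c : k', T (algebraMap F (Sep F) (algebraMap k'[X] F (C c))) =
    algebraMap F (Sep F) (algebraMap k'[X] F (C (τ c)))

/-- The module `M` of the classes is free of finite rank. There are automorphisms `T` with the property
`R`, each of them acts on `M` as an endomorphism `φ` whose characteristic polynomial modulo `2` divides
`Q`; if `Q` is separable then `φ` has simple spectrum. -/
def Concl (R : (Sep F ≃ₐ[K] Sep F) → Prop) (Q : (ZMod 2)[X]) : Prop :=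
  ∃ (M : Type) (_ : AddCommGroup M) (_ : Module ℤ_[2] M) (_ : Module.Finite ℤ_[2] M)
    (_ : Module.Free ℤ_[2] M) (κ : Cochain F (Sep F) f → M),
    IsClassMap f (IsSelmerCocycle B f) M κ ∧ (∃ T, R T) ∧
    ∀ T : Sep F ≃ₐ[K] Sep F, R T → ∃ φ : M →ₗ[ℤ_[2]] M, ActsAs B f κ T φ ∧
      charpolyModTwo M φ ∣ Q ∧ (Q.Separable → HasSimpleSpectrum M φ)

end sel

/-- The statement. -/
def Main : Prop :=
  ∀ (k k' K F L V : Type) [Field k] [Field k'] [Algebra k k'] [IsSepClosure k k'] [Field K]
    [Algebra k[X] K] [IsFractionRing k[X] K] [Field F] [Algebra k'[X] F] [IsFractionRing k'[X] F]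
    [Algebra K F] (P : k[X][X]) [IsDedekindDomain (CurveRing k' P)] [Field L]
    [Algebra (CurveRing k' P) L] [IsFractionRing (CurveRing k' P) L] [AddCommGroup V]
    [Module (ZMod 2) V] [Module.Finite (ZMod 2) V] (e : L ≃+* L) (τ : k' → k') (cl : Lˣ → V)
    (E : V →ₗ[ZMod 2] V),
    (∀ p : k[X], algebraMap K F (algebraMap k[X] K p) =
      algebraMap k'[X] F (p.map (algebraMap k k'))) →
    IsSmoothCurve P → FixesPolys k' P L e → HasConstants k' P L e τ →
    IsModTwo (squares L) (evenGroup (CurveRing k' P) L) (Units.map (e : L →* L)) cl E →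
      Concl (F := F) k'[X] (fPoly P K) (fun T => ActsOnConstants T τ) E.charpoly

open Pool.Agent.Q45.GM (SelT clsOf clsOf_surj clsOf_add clsOf_zero rho rho_cls rho_mul isGeom_rat
  IsBr with_dp evS sqS Fixes FixP lift_e core_cong IsMod2 compl_of)

section conv

variable {K F : Type} [Field K] [Field F] [Algebra K F] {B : Type} [CommRing B] [IsDedekindDomain B]
  [Algebra B F] [IsFractionRing B F] {f : K[X]}

theorem toTC {c : Cochain F (Sep F) f} (h : IsTC 2 2 f c) : Pool.Agent.Y160.SQ.IsTC 2 2 f c :=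
  ⟨fun n => ⟨(h.coc n).lc, (h.coc n).mul⟩, h.zero, h.step⟩

theorem ofTC {c : Cochain F (Sep F) f} (h : Pool.Agent.Y160.SQ.IsTC 2 2 f c) : IsTC 2 2 f c :=
  ⟨fun n => ⟨(h.coc n).lc, (h.coc n).mul⟩, h.zero, h.step⟩

/-- The classes of the cocycles. -/
theorem classMap : IsClassMap f (IsSelmerCocycle B f) (SelT (F := F) 2 B f 2) (clsOf B f) where
  surj m := by
    obtain ⟨c, ⟨h1, h2⟩, h3⟩ := clsOf_surj B f m
    exact ⟨c, ⟨ofTC h1, h2⟩, h3⟩
  add c d hc hd := clsOf_add B f (toTC hc.1) hc.2 (toTC hd.1) hd.2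
  zero c hc := by
    refine (clsOf_zero B f (toTC hc.1) hc.2).trans ⟨?_, ?_⟩
    · rintro ⟨R, hR, h⟩
      exact ⟨R, ⟨hR.zero, hR.step⟩, h⟩
    · rintro ⟨R, hR, h⟩
      exact ⟨R, ⟨hR.zero, hR.step⟩, h⟩

end conv


section acts

variable {k k' K F : Type} [Field k] [Field k'] [Algebra k k'] [IsSepClosed k']
  [Algebra.IsSeparable k k'] [Field K] [Algebra k[X] K] [Field F] [Algebra k'[X] F] [Algebra K F]

theorem acts_iff [IsFractionRing k'[X] F] (hF' : Pool.Agent.Q45.TW.IsGeom k k' K F) (f : K[X])
    (T : Sep F ≃ₐ[K] Sep F)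
    (φ : SelT (F := F) 2 k'[X] f 2 →ₗ[ℤ_[2]] SelT (F := F) 2 k'[X] f 2) :
    ActsAs k'[X] f (clsOf k'[X] f) T φ ↔ φ = rho k'[X] hF' f T := by
  constructor
  · intro h
    refine LinearMap.ext fun m => ?_
    obtain ⟨c, ⟨hc, hcs⟩, rfl⟩ := clsOf_surj k'[X] f m
    have hcj := Pool.Agent.Q45.GM.lf_T k'[X] hF' f T
    have hd : IsTransform f T c (fun n σ => jm 2 f (ak T)
        (c n ((Pool.Agent.Q45.GM.lf k'[X] hF' f T).conj σ))) := by
      intro n σ σ' hσ
      have h5 : (Pool.Agent.Q45.GM.lf k'[X] hF' f T).conj σ = σ' := by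
        refine AlgEquiv.ext fun x => T.injective ?_
        rw [hσ]
        have h6 := (Pool.Agent.Q45.GM.lf k'[X] hF' f T).T_conj σ x
        rwa [hcj] at h6
      have h8 : ∀ ρ : Sep F ≃ₐ[F] Sep F, ρ = σ' →
          jm 2 f (ak T) (c n ρ) = jm 2 f (ak T) (c n σ') := by
        rintro ρ rfl
        rfl
      exact h8 _ h5
    have h7 := (h c _ ⟨ofTC hc, hcs⟩ hd).2
    rw [← h7]
    exact (rho_cls k'[X] hF' f T hc hcs hd).2
  · rintro rfl c d hc hd
    obtain ⟨⟨h4, h5⟩, h6⟩ := rho_cls k'[X] hF' f T (toTC hc.1) hc.2 hd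
    exact ⟨⟨ofTC h4, h5⟩, h6⟩

end acts

theorem main : Main := by
  intro k k' K F L V _ _ _ hk' _ _ _ _ _ _ _ P _ _ _ _ _ _ _ e τ cl E hcomp hP he hτ hV
  haveI : IsSepClosed k' := hk'.sep_closed
  haveI : Algebra.IsSeparable k k' := hk'.separable
  have hbr : IsBr P := ⟨hP.two, hP.monic, hP.odd, hP.separable, hP.smooth⟩
  have hF' := isGeom_rat (K := K) (F := F) hcomp
  refine with_dp (k' := k') (K := K) (F := F) hbr (Q := extendPoly k' P) rfl hcomp L ?_
  intro _ _ _ _ _ _ _ _ _ _ hgd a θ hfld hff hm hreg hfix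
  have hV' : IsMod2 (sqS L) (evS (CurveRing k' P) L) (Units.map (e : L →* L)) cl E :=
    ⟨hV.add, hV.zero, hV.act⟩
  have hfe : Fixes K θ e := (hfix e).1 he
  have hcon : ∀ x : k', algebraMap F L (algebraMap k'[X] F (C x)) =
      algebraMap (CurveRing k' P) L (AdjoinRoot.of _ (C x)) := by
    intro x
    rw [← IsScalarTower.algebraMap_apply k'[X] F L,
      IsScalarTower.algebraMap_apply k'[X] (CurveRing k' P) L]
    rfl
  have hTe : ∀ T : Sep F ≃ₐ[K] Sep F, ActsOnConstants T τ → ∀ x : k',
      T (Pool.Agent.Q45.GM.cs k' F x) = algebraMap L (Sep F) (e (algebraMap F L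
        (algebraMap k'[X] F (C x)))) := by
    intro T hT x
    rw [hcon, hτ x, ← hcon, ← IsScalarTower.algebraMap_apply F L (Sep F)]
    exact hT x
  obtain ⟨T₀, hT₀⟩ := lift_e (F := F) e hfe.1
  have hT₀' : ActsOnConstants (F := F) T₀ τ := by
    intro x
    have h1 := hT₀ (algebraMap F L (algebraMap k'[X] F (C x)))
    rw [← IsScalarTower.algebraMap_apply F L (Sep F), hcon, hτ x, ← hcon,
      ← IsScalarTower.algebraMap_apply F L (Sep F)] at h1
    exact h1
  obtain ⟨h1, h2, _⟩ := core_cong (S := CurveRing k' P) k'[X] hgd Pool.Agent.Q151.GM.lin8 hF' hff hm hreg hfld e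
    hfe hV' T₀ (hTe T₀ hT₀')
  haveI i1 : Module.Finite ℤ_[2] (SelT (F := F) 2 k'[X] (fPoly P K) 2) := h1
  haveI i2 : Module.Free ℤ_[2] (SelT (F := F) 2 k'[X] (fPoly P K) 2) := h2
  have hind := acts_iff (K := K) (F := F) hF' (fPoly P K)
  refine ⟨SelT (F := F) 2 k'[X] (fPoly P K) 2, inferInstance, inferInstance, i1, i2,
    clsOf k'[X] (fPoly P K), classMap, ⟨T₀, hT₀'⟩, fun T hT => ⟨rho k'[X] hF' (fPoly P K) T,
    (hind T _).2 rfl, ?_⟩⟩
  obtain ⟨_, _, h5⟩ := core_cong (S := CurveRing k' P) k'[X] hgd Pool.Agent.Q151.GM.lin8 hF' hff hm hreg hfld e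
    hfe hV' T (hTe T hT)
  have h5' : charpolyModTwo _ (rho k'[X] hF' (fPoly P K) T) ∣ E.charpoly := h5
  refine ⟨h5', fun hsep => ?_⟩
  obtain ⟨h6, h7, -, h8, -⟩ := Pool.Agent.Q45.GM.JLIN2.main 2 _ (rho k'[X] hF' (fPoly P K) T) (hsep.of_dvd h5')
  exact ⟨h6, fun U hU => compl_of _ h8 U hU, h7⟩

/-- **Frobenius on the cohomology of a double plane and the branch curve modulo `2`.** -/
theorem result : Main := main

end Pool.Agent.Results.MP_93fb11_ag.BranchCurveModTwo
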