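import Pool.Agent.Q55.Gp.JFinal

/-!
# The Jordan type of Frobenius and the pole of the zeta function of `X × X`

Let `X` be a smooth projective variety of dimension `d` over an algebraic closure of the field with
`p` elements. Let `δ` be the difference of the order of the pole of the zeta function of `X × X` at
the integer `d` and of the rank of the cycles of codimension `d` on `X × X` modulo numerical
equivalence (`δ = 0` is the formula of Tate for `X × X`, which implies that the Frobenius
endomorphism is semisimple on the cohomology of `X`).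

Over all large finite fields, let `m(i, μ)` be the multiplicity of the eigenvalue `μ` of the Frobenius
endomorphism `F` on `H^i(X)` and `c_j(i, μ)` the number of the Jordan blocks of size `j` of `F` on
`H^i(X)` for the eigenvalue `μ`.

* The rank of the cycles of codimension `d` on `X × X` modulo numerical equivalence is at most the sum
  of the `c_j(i, μ) ^ 2` over all `i`, `μ` and `j`. The order of the pole is the sum of the
  `m(i, μ) ^ 2`.
* The sum over all `i` and `μ` of the numbers `m(i, μ) ^ 2 - ∑ c_j(i, μ) ^ 2` is at most `δ`.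
* If `F` has a Jordan block of size at least two on `H^i(X)` for the eigenvalue `μ` of multiplicity
  `m` then `4 m - 5 ≤ δ`, and even `8 m - 10 ≤ δ` unless `i = d` and `μ ^ 2 = q ^ d`.
* If `δ ≤ 2` then the Frobenius endomorphisms are semisimple (diagonalisable) on the cohomology of
  `X`. If `δ ≤ 5` then they are semisimple on `H^i(X)` for all `i ≠ d`.
-/

open CategoryTheory AlgebraicGeometry

universe u v

namespace Pool.Agent.Results.MP_93fb11_ag.JordanTypeDefect

open Pool.Agent.H914 Pool.Agent.H914.VarClass Pool.Agent.H914.VarClass.Obj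
  Pool.Agent.H914.WeilCohomology Pool.Agent.W534 Pool.Agent.TH132.P Pool.Agent.Q55.Gp

/-- **The Jordan type of Frobenius and the defect of `X × X`.** -/
theorem result {k : Type u} [Field k] {𝒱 : VarClass k} {ops : CycleOps 𝒱}
    (W : WeilCohomology.{u, v} ops) [IsAlgClosed W.K] (p : ℕ) (hp : p.Prime) (Φ : FrobSystem W p)
    (σ : W.K →+* ℂ) (hRH : ∀ Z : 𝒱.Obj, RiemannHyp Φ σ Z) (X : 𝒱.Obj) (δ : ℕ)
    (hδ : PoleDefect Φ σ (X.prod X) X.dim δ) :
    (∃ t, 0 < t ∧ ∀ s, 0 < s → t ∣ s → numRank ops (X.prod X) X.dim ≤ totalSq Φ X s ∧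
      totalDefect Φ X s ≤ δ ∧ BlockBound Φ X s δ) ∧
    (δ ≤ 2 → ∀ i, Diagonalisable Φ X i) ∧
    (δ ≤ 5 → ∀ i, i ≠ X.dim → Diagonalisable Φ X i) :=
  jordan_type hp.one_lt hRH hδ

end Pool.Agent.Results.MP_93fb11_ag.JordanTypeDefect
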