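import Pool.Agent.Q282.PB.Prob

/-!
# The Frobenius eigenvalues of almost all pullbacks of a family of varieties over a finite field do not form clusters

Let `F` be a finite field with `q` elements, `G` a set of polynomials in `x_1, ..., x_s` and `u = (u_i)`, `i` in the finite set
`ι`, over `F` (a family of varieties over the affine space, with fibres `G_u`), and `Z` a set of polynomials in `u`, with `U` the
open set where some element of `Z` is not zero. For a tuple `f` of polynomials in one variable `t` let `V_f` be the variety of the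
`(t, x)` with `x` in the fibre over `f(t)`.
-/

set_option autoImplicit false

namespace Pool.Agent.Results.MP_93fb11_ag.NoClustersOfEigenvalues

open Finset Polynomial
open Q282PB (IsFamily MapsTo IsSpectrum)

open Classical in
/-- For the Frobenius eigenvalues `α` of `V_f` of weight `w + 1`, some multiset `η` of complex numbers of absolute value one (the
eigenvalues, divided by their absolute values, of some variety `Y`) and some `γ` of absolute value `R` there are more than
`M * #η` pairs `(e, a)` in `η × α` with `e a` at distance at most `ρ` from `γ`. -/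
def HasCluster {F : Type} [Field F] [Fintype F] {s : ℕ} {ι : Type} [Fintype ι] (G : Set (MvPolynomial (Fin s ⊕ ι) F)) (w : ℕ)
    (c : ℕ → ℝ) (f : ι → F[X]) (B R ρ M : ℝ) : Prop :=
  ∃ α : Multiset ℂ, IsSpectrum G w c f B α ∧ ∃ (η : Multiset ℂ) (γ : ℂ), (∀ e ∈ η, ‖e‖ = 1) ∧ ‖γ‖ = R ∧
    M * (Multiset.card η : ℝ) < Multiset.card ((η ×ˢ α).filter fun x => ‖x.1 * x.2 - γ‖ ≤ ρ)

open Classical in
lemma card_pairs (α η : Multiset ℂ) (M R ρ : ℝ) (γ : ℂ) (hη : ∀ e ∈ η, ‖e‖ = 1) (hγ : ‖γ‖ = R)
    (h : ∀ γ' : ℂ, ‖γ'‖ = R → (Multiset.card (α.filter fun a => ‖a - γ'‖ ≤ ρ) : ℝ) ≤ M) :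
    (Multiset.card ((η ×ˢ α).filter fun x => ‖x.1 * x.2 - γ‖ ≤ ρ) : ℝ) ≤ M * (Multiset.card η : ℝ) := by
  induction η using Multiset.induction_on with
  | empty => simp
  | cons e t ih =>
    have h1 := ih fun e' he' => hη e' (Multiset.mem_cons_of_mem he')
    have h2 := hη e (Multiset.mem_cons_self e t)
    have he0 : e ≠ 0 := by
      rintro rfl
      rw [norm_zero] at h2
      exact zero_ne_one h2
    rw [Multiset.cons_product, Multiset.filter_add, Multiset.card_add, Multiset.card_cons, Multiset.filter_map, Multiset.card_map]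
    have h3 := h (γ / e) (by rw [norm_div, hγ, h2, div_one])
    have h4 : α.filter ((fun x : ℂ × ℂ => ‖x.1 * x.2 - γ‖ ≤ ρ) ∘ Prod.mk e) = α.filter fun a => ‖a - γ / e‖ ≤ ρ := by
      refine Multiset.filter_congr fun a _ => ?_
      show ‖e * a - γ‖ ≤ ρ ↔ ‖a - γ / e‖ ≤ ρ
      have h5 : e * a - γ = e * (a - γ / e) := by field_simp
      rw [h5, norm_mul, h2, one_mul]
    rw [h4]
    push_cast
    linarith

/-- **Main theorem.** Suppose that over `U` the numbers of points of the fibres over a field with `q ^ m` elements differ from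
`c(m)` by at most `C q ^ (m w / 2)`, on average by at most `C q ^ (m (w - 1) / 2)`. Then for all `n, K ≥ 1` and all tuples `g`, for
all tuples `t` of polynomials of degree less than `n` but at most a proportion `n / K ^ K`: if `f = g + t` maps the line to `U` and
`V_f` has at most `κ n` eigenvalues of size `q ^ ((w + 1) / 2)` and at most `κ n` others, then for all `Y` and `γ` at most
`100 (κ + C) K b(Y)` of the pairs have a product at distance at most `2 K q ^ ((w + 1) / 2) / n` from `γ`. -/
theorem result {F : Type} [Field F] [Fintype F] {s : ℕ} {ι : Type} [Fintype ι] (G : Set (MvPolynomial (Fin s ⊕ ι) F))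
    (Z : Set (MvPolynomial ι F)) (w : ℕ) (c : ℕ → ℝ) (C κ : ℝ) (hC : 0 < C) (hκ : 0 ≤ κ) (hfam : IsFamily G Z w c C)
    (g : ι → F[X]) (n K : ℕ) (hn : 1 ≤ n) (hK : 1 ≤ K) :
    (Nat.card {t : ι → degreeLT F n // MapsTo Z (fun i => g i + (t i).1) ∧
      HasCluster G w c (fun i => g i + (t i).1) (κ * n) (Real.sqrt (Fintype.card F) ^ (w + 1))
        (2 * K * Real.sqrt (Fintype.card F) ^ (w + 1) / n) (100 * (κ + C) * K)} : ℝ) ≤
      n / (K : ℝ) ^ K * Nat.card (ι → degreeLT F n) := by
  classical
  have h1 := Q282PB.clusters G Z w c C κ hC hκ hfam g n K hn hK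
  rw [Nat.card_eq_fintype_card, Nat.card_eq_fintype_card, Fintype.card_subtype]
  refine le_trans (Nat.cast_le.2 (card_le_card ?_)) h1
  intro t ht
  rw [mem_filter] at ht ⊢
  obtain ⟨-, hmap, α, hα, η, γ, hη, hγ, hlt⟩ := ht
  refine ⟨mem_univ _, hmap, α, hα, ?_⟩
  by_contra hcon
  refine absurd hlt (not_lt.2 (card_pairs α η _ _ _ γ hη hγ fun γ' hγ' => ?_))
  by_contra h2
  exact hcon ⟨γ', hγ', not_le.1 h2⟩

end Pool.Agent.Results.MP_93fb11_ag.NoClustersOfEigenvalues
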