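import Pool.Agent.Q226.SF.Main

/-!
# Semisimplicity of Frobenius on hypersurfaces given by sums of forms in few variables

Let `k'` be an algebraic closure of the field with `p` elements, `p ≥ 5`, and `ℓ ≠ p`. We consider the
smooth hypersurfaces over `k'`

  `W : f_1(x^(1)) + f_2(x^(2)) + ⋯ + f_r(x^(r)) = 0`, `r ≥ 1` arbitrary,

where the `f_j` are forms of degree `d ≥ 2` prime to `p` in disjoint sets of variables. The dimension
of `W` is arbitrary.

* If Frobenius is semisimple on the primitive cohomology of the hypersurfaces `f_j = 0` and
  `f_j = u ^ d` (`u` a new variable), then it is semisimple on that of `W`.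
* This condition holds if the `f_j` are cubic forms in at most six variables, or quartic forms in at
  most four variables, or forms of any degree `d` in at most two variables, or if they are such forms
  minus `u ^ d`.
* Let `V` be a smooth projective variety over a finite field `k ⊂ k'` such that the motive of `V ⊗ k'`
  (homological equivalence) is in the tensor category generated by the motives of such hypersurfaces
  `W` and by the motives of varieties over finite fields with semisimple Frobenius (curves, abelian
  varieties, K3 surfaces, ...). Then the Frobenius `F` of `V` over `k` acts semisimply on
  `H^r(V ⊗ k', ℚ_ℓ)` for all `r`. In particular this holds for all products of such hypersurfaces,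
  curves, abelian varieties and K3 surfaces, and for all smooth projective varieties dominated by such
  products.

The stability of semisimplicity under tensor products, direct sums, direct summands, Tate twists and
the descent from the powers of `F` to `F` are proved here.
-/

open CategoryTheory MonoidalCategory

universe v u w

namespace Pool.Agent.Results.MP_93fb11_ag.SumsOfForms

open Pool.Agent.Q28.HJ Pool.Agent.Q226.SF

/-- **Semisimplicity of Frobenius for sums of forms.** Let `T` be the motives over an algebraic closure
of a finite field with their `ℓ`-adic cohomology and Frobenius endomorphisms, the hypersurfaces and the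
varieties over finite fields (`hT`: known facts). Sums `W` of forms in few variables (`IsSmallSum`) are
sums of good forms (`IsGoodSum`); for sums of good forms Frobenius is semisimple on the primitive
cohomology; and for all smooth projective varieties `V` over finite fields whose motive is generated
by such hypersurfaces and by varieties with semisimple Frobenius, Frobenius is semisimple on `H^r` for
all `r`. -/
theorem result (ℓ : ℕ) [Fact ℓ.Prime] {𝓜 : Type u} [Category.{v} 𝓜] [Preadditive 𝓜]
    [MonoidalCategory 𝓜] {T : FrobData.{v, u, w} 𝓜 ℚ_[ℓ]} (hT : T.Facts) :
    (∀ W, T.IsSmallSum W → T.IsGoodSum W) ∧
    (∀ W, T.IsGoodSum W → T.Smooth W ∧ T.Semisimple (T.prim W)) ∧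
    ∀ V : T.Var, T.Generated (T.mot V) → ∀ r : ℕ, (T.F V r).IsSemisimple :=
  ⟨fun _ h => FrobData.small_good hT h, fun _ h => FrobData.good_sum hT h,
    fun V h => FrobData.final hT V h⟩

end Pool.Agent.Results.MP_93fb11_ag.SumsOfForms
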